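import Mathlib

/-!
# The `q`-analogue of Rado's theorem for `q`-transversals holds

The key fact is that in every `q`-matroid of rank `r` on a space `V` of dimension `N` the bar
nullity is `n̄(X) = max(0, dim X + r - N)`: if a basis `B` meets `X` nontrivially and `B + X ≠ V`,
then some basis meets `X` in a smaller subspace.  By the linear version of Rado's theorem one can
replace the `X i` by larger hyperplanes in general position; a basis meeting their intersection in
a subspace of the least possible dimension contains the transversal.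
-/

set_option autoImplicit false

namespace Pool.Agent.Results.MP_ca0b96_co.QRado

open Module

variable {K V : Type*} [Field K] [AddCommGroup V] [Module K V]

/-- A `q`-matroid on the vector space `V`, given by its rank function on the subspaces. -/
structure QMatroid (K V : Type*) [Field K] [AddCommGroup V] [Module K V] where
  /-- the rank function -/
  r : Submodule K V → ℕ
  le_dim : ∀ A, r A ≤ finrank K A
  mono : ∀ A B, A ≤ B → r A ≤ r B
  submod : ∀ A B, r (A ⊔ B) + r (A ⊓ B) ≤ r A + r B

namespace QMatroid

/-- `A` is independent: `r(A) = dim A`. -/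
def Indep (M : QMatroid K V) (A : Submodule K V) : Prop := M.r A = finrank K A

/-- A basis is a maximal independent subspace. -/
def IsBasis (M : QMatroid K V) (B : Submodule K V) : Prop :=
  M.Indep B ∧ ∀ A, M.Indep A → B ≤ A → A = B

/-- The bar nullity: the least dimension of `B ∩ X`, where `B` is a basis. -/
noncomputable def barNullity (M : QMatroid K V) (X : Submodule K V) : ℕ :=
  sInf {d | ∃ B, M.IsBasis B ∧ d = finrank K (B ⊓ X : Submodule K V)}

end QMatroid

/-- `T` is a `q`-transversal of the family `X 0, ..., X (n-1)`: it has dimension `n` and every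
basis of `T` can be listed as `b_0, ..., b_{n-1}` with `b_i ∉ X i`. -/
def IsQTransversal {n : ℕ} (X : Fin n → Submodule K V) (T : Submodule K V) : Prop :=
  finrank K T = n ∧ ∀ b : Basis (Fin n) K T, ∃ σ : Equiv.Perm (Fin n),
    ∀ i, (b (σ i) : V) ∉ X i

/-! ### Generalities on subspaces -/

section Generalities

variable [FiniteDimensional K V]

theorem exists_compl_in {A B : Submodule K V} (h : A ≤ B) :
    ∃ C ≤ B, A ⊔ C = B ∧ A ⊓ C = ⊥ ∧ finrank K A + finrank K C = finrank K B := by
  obtain ⟨C, hC⟩ := Submodule.exists_isCompl A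
  have h1 : A ⊔ C ⊓ B = B := by
    rw [← sup_inf_assoc_of_le C h, hC.sup_eq_top, top_inf_eq]
  have h2 : A ⊓ (C ⊓ B) = ⊥ := by
    rw [← inf_assoc, hC.inf_eq_bot, bot_inf_eq]
  refine ⟨C ⊓ B, inf_le_right, h1, h2, ?_⟩
  have h3 := Submodule.finrank_sup_add_finrank_inf_eq A (C ⊓ B)
  rw [h1, h2, finrank_bot] at h3
  omega

/-! ### The linear version of Rado's theorem -/

theorem rado {ι : Type*} [Fintype ι] [DecidableEq ι] :
    ∀ (k : ℕ) (Y : ι → Submodule K V), ∑ i, finrank K (Y i) = k →
      (∀ J : Finset ι, J.card ≤ finrank K (J.sup Y : Submodule K V)) →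
      ∃ y : ι → V, (∀ i, y i ∈ Y i) ∧ LinearIndependent K y := by
  intro k
  induction k using Nat.strong_induction_on with
  | _ k ih =>
  intro Y hk hJ
  by_cases hall : ∀ i, finrank K (Y i) ≤ 1
  · have h1 : ∀ i, ∃ y ∈ Y i, Y i = Submodule.span K {y} := by
      intro i
      obtain ⟨y, hy⟩ := (finrank_le_one_iff).1 (hall i)
      refine ⟨y, y.2, ?_⟩
      apply le_antisymm
      · intro x hx
        obtain ⟨c, hc⟩ := hy ⟨x, hx⟩
        rw [Submodule.mem_span_singleton]
        exact ⟨c, congrArg Subtype.val hc⟩
      · rw [Submodule.span_singleton_le_iff_mem]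
        exact y.2
    choose y hy hspan using h1
    refine ⟨y, hy, ?_⟩
    rw [linearIndependent_iff_card_le_finrank_span]
    have h2 : (Finset.univ.sup Y : Submodule K V) ≤ Submodule.span K (Set.range y) := by
      apply Finset.sup_le
      intro i _
      rw [hspan i, Submodule.span_singleton_le_iff_mem]
      exact Submodule.subset_span ⟨i, rfl⟩
    have h3 := hJ Finset.univ
    rw [Finset.card_univ] at h3
    exact h3.trans (Submodule.finrank_mono h2)
  · push Not at hall
    obtain ⟨i, hi⟩ := hall
    -- two proper subspaces with sum `Y i`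
    have hne : Y i ≠ ⊥ := by
      intro h
      rw [h, finrank_bot] at hi
      omega
    obtain ⟨v, hv, hv0⟩ := (Submodule.ne_bot_iff _).1 hne
    have hZ'le : Submodule.span K {v} ≤ Y i := by
      rw [Submodule.span_singleton_le_iff_mem]; exact hv
    obtain ⟨Z, hZle, hsup, -, hfr⟩ := exists_compl_in hZ'le
    have hfv : finrank K (Submodule.span K {v}) = 1 := finrank_span_singleton hv0
    set Z' := Submodule.span K {v} with hZ'
    -- the replaced families
    have key : (∀ J : Finset ι, J.card ≤ finrank K (J.sup (Function.update Y i Z) :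
        Submodule K V)) ∨ (∀ J : Finset ι, J.card ≤ finrank K (J.sup (Function.update Y i Z') :
        Submodule K V)) := by
      by_contra hcon
      push Not at hcon
      obtain ⟨⟨J, hJ1⟩, ⟨J', hJ1'⟩⟩ := hcon
      have form : ∀ (U : Submodule K V) (J : Finset ι),
          finrank K (J.sup (Function.update Y i U) : Submodule K V) < J.card →
          i ∈ J ∧ (J.sup (Function.update Y i U) : Submodule K V) = U ⊔ (J.erase i).sup Y := by
        intro U J hlt
        have hiJ : i ∈ J := by
          by_contra hiJ
          have h4 : (J.sup (Function.update Y i U) : Submodule K V) = J.sup Y := by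
            apply Finset.sup_congr rfl
            intro j hj
            rw [Function.update_of_ne]
            rintro rfl
            exact hiJ hj
          rw [h4] at hlt
          exact absurd (hJ J) (not_le.2 hlt)
        refine ⟨hiJ, ?_⟩
        conv_lhs => rw [← Finset.insert_erase hiJ]
        rw [Finset.sup_insert, Function.update_self]
        congr 1
        apply Finset.sup_congr rfl
        intro j hj
        rw [Function.update_of_ne (Finset.ne_of_mem_erase hj)]
      obtain ⟨hiJ, e1⟩ := form Z J hJ1
      obtain ⟨hiJ', e2⟩ := form Z' J' hJ1'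
      rw [e1] at hJ1
      rw [e2] at hJ1'
      have h5 := Submodule.finrank_sup_add_finrank_inf_eq (Z ⊔ (J.erase i).sup Y)
        (Z' ⊔ (J'.erase i).sup Y)
      have h6 : (J ∪ J').sup Y ≤ (Z ⊔ (J.erase i).sup Y) ⊔ (Z' ⊔ (J'.erase i).sup Y) := by
        apply Finset.sup_le
        intro j hj
        by_cases hji : j = i
        · rw [hji, ← hsup]
          exact sup_le (le_sup_left.trans le_sup_right) (le_sup_left.trans le_sup_left)
        · rcases Finset.mem_union.1 hj with h | h
          · exact (Finset.le_sup (f := Y) (Finset.mem_erase.2 ⟨hji, h⟩)).trans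
              (le_sup_right.trans le_sup_left)
          · exact (Finset.le_sup (f := Y) (Finset.mem_erase.2 ⟨hji, h⟩)).trans
              (le_sup_right.trans le_sup_right)
      have h7 : ((J ∩ J').erase i).sup Y ≤
          (Z ⊔ (J.erase i).sup Y) ⊓ (Z' ⊔ (J'.erase i).sup Y) := by
        apply Finset.sup_le
        intro j hj
        obtain ⟨hji, hj⟩ := Finset.mem_erase.1 hj
        obtain ⟨h8, h9⟩ := Finset.mem_inter.1 hj
        exact le_inf ((Finset.le_sup (f := Y) (Finset.mem_erase.2 ⟨hji, h8⟩)).trans le_sup_right)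
          ((Finset.le_sup (f := Y) (Finset.mem_erase.2 ⟨hji, h9⟩)).trans le_sup_right)
      have h8 := (hJ (J ∪ J')).trans (Submodule.finrank_mono h6)
      have h9 := (hJ ((J ∩ J').erase i)).trans (Submodule.finrank_mono h7)
      have h10 := Finset.card_union_add_card_inter J J'
      have h11 : ((J ∩ J').erase i).card = (J ∩ J').card - 1 :=
        Finset.card_erase_of_mem (Finset.mem_inter.2 ⟨hiJ, hiJ'⟩)
      have h12 : 0 < (J ∩ J').card := Finset.card_pos.2 ⟨i, Finset.mem_inter.2 ⟨hiJ, hiJ'⟩⟩
      omega
    have step : ∀ U : Submodule K V, U ≤ Y i → finrank K U < finrank K (Y i) →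
        (∀ J : Finset ι, J.card ≤ finrank K (J.sup (Function.update Y i U) : Submodule K V)) →
        ∃ y : ι → V, (∀ i, y i ∈ Y i) ∧ LinearIndependent K y := by
      intro U hU hlt hJU
      have hsum : ∑ j, finrank K (Function.update Y i U j) < k := by
        rw [← hk]
        refine Finset.sum_lt_sum (fun j _ => ?_) ⟨i, Finset.mem_univ i, ?_⟩
        · by_cases hji : j = i
          · subst hji
            rw [Function.update_self]
            exact hlt.le
          · rw [Function.update_of_ne hji]
        · rw [Function.update_self]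
          exact hlt
      obtain ⟨y, hy, hli⟩ := ih _ hsum _ rfl hJU
      refine ⟨y, fun j => ?_, hli⟩
      by_cases hji : j = i
      · subst hji
        have := hy j
        rw [Function.update_self] at this
        exact hU this
      · have := hy j
        rwa [Function.update_of_ne hji] at this
    rcases key with h | h
    · exact step Z hZle (by omega) h
    · exact step Z' hZ'le (by omega) h

end Generalities

/-! ### Bases of `q`-matroids -/

namespace QMatroid

variable [FiniteDimensional K V] (M : QMatroid K V)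

theorem Indep.le {M : QMatroid K V} {A B : Submodule K V} (hB : M.Indep B) (h : A ≤ B) :
    M.Indep A := by
  obtain ⟨C, -, hsup, -, hfr⟩ := exists_compl_in h
  have h1 := M.submod A C
  rw [hsup, hB] at h1
  have h2 := M.le_dim C
  have h3 := M.le_dim A
  show M.r A = finrank K A
  omega

theorem indep_bot : M.Indep ⊥ := by
  have := M.le_dim ⊥
  rw [finrank_bot] at this
  show M.r ⊥ = finrank K (⊥ : Submodule K V)
  rw [finrank_bot]
  omega

theorem exists_basis {A : Submodule K V} (hA : M.Indep A) : ∃ B, M.IsBasis B ∧ A ≤ B := by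
  -- choose an independent `B ≥ A` of the greatest dimension
  have hb : ∀ n : ℕ, ∀ B, M.Indep B → A ≤ B → finrank K V - finrank K B = n →
      ∃ B, M.IsBasis B ∧ A ≤ B := by
    intro n
    induction n using Nat.strong_induction_on with
    | _ n ih =>
    intro B hB hAB hn
    by_cases hbas : M.IsBasis B
    · exact ⟨B, hbas, hAB⟩
    · have : ∃ B', M.Indep B' ∧ B ≤ B' ∧ B' ≠ B := by
        by_contra hcon
        push Not at hcon
        exact hbas ⟨hB, fun B' h1 h2 => hcon B' h1 h2⟩
      obtain ⟨B', h1, h2, h3⟩ := this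
      have h4 : B < B' := lt_of_le_of_ne h2 (Ne.symm h3)
      have h5 := Submodule.finrank_lt_finrank_of_lt h4
      have h6 := Submodule.finrank_le B'
      exact ih _ (by omega) B' h1 (hAB.trans h2) rfl
  exact hb _ A hA le_rfl rfl

theorem finrank_sup_span {A : Submodule K V} (v : V) :
    finrank K (A ⊔ Submodule.span K {v} : Submodule K V) ≤ finrank K A + 1 := by
  have h1 := Submodule.finrank_sup_add_finrank_inf_eq A (Submodule.span K {v})
  have h2 : finrank K (Submodule.span K {v}) ≤ 1 := by
    have := finrank_span_le_card (R := K) ({v} : Set V)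
    simpa using this
  omega

theorem r_basis {B : Submodule K V} (hB : M.IsBasis B) : M.r B = M.r ⊤ := by
  have hone : ∀ v, M.r (B ⊔ Submodule.span K {v}) = M.r B := by
    intro v
    by_contra hne
    have h1 := M.mono B (B ⊔ Submodule.span K {v}) le_sup_left
    have h2 := M.le_dim (B ⊔ Submodule.span K {v})
    have h3 := finrank_sup_span (A := B) v
    have h4 : M.r B = finrank K B := hB.1
    have h5 : M.Indep (B ⊔ Submodule.span K {v}) := by
      show M.r _ = finrank K _
      omega
    have h6 := hB.2 _ h5 le_sup_left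
    rw [h6] at hne
    exact hne rfl
  have key : ∀ n : ℕ, ∀ U, B ≤ U → M.r U = M.r B → finrank K V - finrank K U = n →
      M.r ⊤ = M.r B := by
    intro n
    induction n using Nat.strong_induction_on with
    | _ n ih =>
    intro U hU hrU hn
    by_cases htop : U = ⊤
    · rw [← htop]; exact hrU
    · obtain ⟨v, hv⟩ : ∃ v, v ∉ U := by
        by_contra hcon
        push Not at hcon
        exact htop (eq_top_iff.2 fun v _ => hcon v)
      have h1 := M.submod U (B ⊔ Submodule.span K {v})
      rw [← sup_assoc, sup_eq_left.2 hU, hone v] at h1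
      have h2 := M.mono B (U ⊓ (B ⊔ Submodule.span K {v})) (le_inf hU le_sup_left)
      have h3 := M.mono U (U ⊔ Submodule.span K {v}) le_sup_left
      have h4 : U < U ⊔ Submodule.span K {v} := by
        refine lt_of_le_of_ne le_sup_left fun h => hv ?_
        rw [h]
        exact Submodule.mem_sup_right (Submodule.mem_span_singleton_self v)
      have h5 := Submodule.finrank_lt_finrank_of_lt h4
      have h6 := Submodule.finrank_le (U ⊔ Submodule.span K {v})
      exact ih _ (by omega) (U ⊔ Submodule.span K {v}) (hU.trans le_sup_left) (by omega) rfl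
  exact (key _ B le_rfl rfl rfl).symm

theorem finrank_basis {B : Submodule K V} (hB : M.IsBasis B) : finrank K B = M.r ⊤ := by
  rw [← M.r_basis hB]
  exact hB.1.symm

theorem isBasis_of {A : Submodule K V} (h1 : finrank K A ≤ M.r ⊤) (h2 : M.r ⊤ ≤ M.r A) :
    M.IsBasis A := by
  have h3 := M.le_dim A
  have hA : M.Indep A := by
    show M.r A = finrank K A
    omega
  refine ⟨hA, fun A' hA' hle => ?_⟩
  have h4 : M.r A' = finrank K A' := hA'
  have h5 := M.mono A' ⊤ le_top
  exact (Submodule.eq_of_le_of_finrank_le hle (by omega)).symm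

/-- The key step: if a basis meets `X` nontrivially and does not span `V` together with `X`, then
some basis meets `X` in a smaller subspace. -/
theorem descent {B X : Submodule K V} (hB : M.IsBasis B) (h1 : B ⊓ X ≠ ⊥) (h2 : B ⊔ X ≠ ⊤) :
    ∃ B', M.IsBasis B' ∧
      finrank K (B' ⊓ X : Submodule K V) < finrank K (B ⊓ X : Submodule K V) := by
  obtain ⟨v, hv⟩ : ∃ v, v ∉ B ⊔ X := by
    by_contra hcon
    push Not at hcon
    exact h2 (eq_top_iff.2 fun v _ => hcon v)
  obtain ⟨b, hb, hb0⟩ := (Submodule.ne_bot_iff _).1 h1
  have hbB : Submodule.span K {b} ≤ B := by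
    rw [Submodule.span_singleton_le_iff_mem]; exact hb.1
  obtain ⟨B0, hB0, hsup, hinf, hfr⟩ := exists_compl_in hbB
  have hfb : finrank K (Submodule.span K {b}) = 1 := finrank_span_singleton hb0
  have hbB0 : b ∉ B0 := by
    intro h
    have : b ∈ Submodule.span K {b} ⊓ B0 := ⟨Submodule.mem_span_singleton_self b, h⟩
    rw [hinf, Submodule.mem_bot] at this
    exact hb0 this
  have hBr := M.finrank_basis hB
  -- the intersection with `X`
  have hcut : ∀ u : V, u ∉ B ⊔ X →
      finrank K ((B0 ⊔ Submodule.span K {u}) ⊓ X : Submodule K V) <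
        finrank K (B ⊓ X : Submodule K V) := by
    intro u hu
    apply Submodule.finrank_lt_finrank_of_lt
    have h3 : (B0 ⊔ Submodule.span K {u}) ⊓ X ≤ B0 := by
      rintro x ⟨hx1, hx2⟩
      obtain ⟨β, hβ, w, hw, rfl⟩ := Submodule.mem_sup.1 hx1
      obtain ⟨c, rfl⟩ := Submodule.mem_span_singleton.1 hw
      by_cases hc : c = 0
      · rw [hc, zero_smul, add_zero]; exact hβ
      · exfalso
        apply hu
        have h4 : c • u ∈ B ⊔ X := by
          have : c • u = -β + (β + c • u) := by abel
          rw [this]
          exact Submodule.add_mem_sup (B.neg_mem (hB0 hβ)) hx2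
        have h5 := (B ⊔ X).smul_mem c⁻¹ h4
        rwa [smul_smul, inv_mul_cancel₀ hc, one_smul] at h5
    refine lt_of_le_of_ne (le_inf (h3.trans hB0) inf_le_right) fun h => hbB0 ?_
    apply h3
    rw [h]
    exact hb
  have hu2 : v + b ∉ B ⊔ X := by
    intro h
    apply hv
    have h3 : v = (v + b) - b := by abel
    rw [h3]
    exact (B ⊔ X).sub_mem h (Submodule.mem_sup_left hb.1)
  -- submodularity
  have h3 := M.submod (B0 ⊔ Submodule.span K {v}) (B0 ⊔ Submodule.span K {v + b})
  have h4 : B ≤ (B0 ⊔ Submodule.span K {v}) ⊔ (B0 ⊔ Submodule.span K {v + b}) := by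
    rw [← hsup]
    refine sup_le ?_ (le_sup_left.trans le_sup_left)
    rw [Submodule.span_singleton_le_iff_mem]
    have e : -v + (v + b) = b := by abel
    have hmem := Submodule.add_mem_sup
      (Submodule.neg_mem (B0 ⊔ Submodule.span K {v})
        (Submodule.mem_sup_right (Submodule.mem_span_singleton_self v)))
      (Submodule.mem_sup_right (Submodule.mem_span_singleton_self (v + b)) :
        v + b ∈ B0 ⊔ Submodule.span K {v + b})
    rwa [e] at hmem
  have h5 := M.mono _ _ h4
  have h6 := M.mono B0 ((B0 ⊔ Submodule.span K {v}) ⊓ (B0 ⊔ Submodule.span K {v + b}))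
    (le_inf le_sup_left le_sup_left)
  have h7 : M.r B0 = finrank K B0 := hB.1.le hB0
  have h8 := M.r_basis hB
  have h9 := finrank_sup_span (A := B0) v
  have h10 := finrank_sup_span (A := B0) (v + b)
  by_cases hcase : M.r ⊤ ≤ M.r (B0 ⊔ Submodule.span K {v})
  · exact ⟨_, M.isBasis_of (by omega) hcase, hcut v hv⟩
  · exact ⟨_, M.isBasis_of (by omega) (by omega), hcut (v + b) hu2⟩

/-- There is a basis in general position with respect to `X`. -/
theorem exists_general (X : Submodule K V) :
    ∃ B, M.IsBasis B ∧ (B ⊓ X = ⊥ ∨ B ⊔ X = ⊤) := by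
  have key : ∀ n : ℕ, ∀ B, M.IsBasis B → finrank K (B ⊓ X : Submodule K V) = n →
      ∃ B, M.IsBasis B ∧ (B ⊓ X = ⊥ ∨ B ⊔ X = ⊤) := by
    intro n
    induction n using Nat.strong_induction_on with
    | _ n ih =>
    intro B hB hn
    by_cases h1 : B ⊓ X = ⊥
    · exact ⟨B, hB, Or.inl h1⟩
    by_cases h2 : B ⊔ X = ⊤
    · exact ⟨B, hB, Or.inr h2⟩
    obtain ⟨B', hB', hlt⟩ := M.descent hB h1 h2
    exact ih _ (by omega) B' hB' rfl
  obtain ⟨B, hB, -⟩ := M.exists_basis M.indep_bot
  exact key _ B hB rfl

theorem barNullity_le {B X : Submodule K V} (hB : M.IsBasis B) :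
    M.barNullity X ≤ finrank K (B ⊓ X : Submodule K V) :=
  Nat.sInf_le ⟨B, hB, rfl⟩

theorem le_barNullity {X : Submodule K V} {c : ℕ}
    (h : ∀ B, M.IsBasis B → c ≤ finrank K (B ⊓ X : Submodule K V)) : c ≤ M.barNullity X := by
  obtain ⟨B, hB, -⟩ := M.exists_basis M.indep_bot
  have hne : {d | ∃ B, M.IsBasis B ∧ d = finrank K (B ⊓ X : Submodule K V)}.Nonempty :=
    ⟨_, B, hB, rfl⟩
  refine le_csInf hne ?_
  rintro d ⟨B, hB, rfl⟩
  exact h B hB

theorem barNullity_top : M.barNullity ⊤ = M.r ⊤ := by
  obtain ⟨B, hB, -⟩ := M.exists_basis M.indep_bot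
  apply le_antisymm
  · have := M.barNullity_le (X := ⊤) hB
    rwa [inf_top_eq, M.finrank_basis hB] at this
  · apply M.le_barNullity
    intro B' hB'
    rw [inf_top_eq, M.finrank_basis hB']

/-- `n̄(X) ≥ dim X + r - dim V` -/
theorem barNullity_lower (X : Submodule K V) :
    finrank K X + M.r ⊤ ≤ M.barNullity X + finrank K V := by
  have h : finrank K X + M.r ⊤ - finrank K V ≤ M.barNullity X := by
    apply M.le_barNullity
    intro B hB
    have h1 := Submodule.finrank_sup_add_finrank_inf_eq B X
    have h2 := Submodule.finrank_le (B ⊔ X)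
    rw [M.finrank_basis hB] at h1
    omega
  omega

end QMatroid

/-! ### Transversals -/

section Transversal

variable [FiniteDimensional K V]

theorem coann_sup {n : ℕ} (X : Fin n → Submodule K V) (J : Finset (Fin n)) :
    (J.sup fun i => (X i).dualAnnihilator).dualCoannihilator = J.inf X := by
  induction J using Finset.induction_on with
  | empty => simp
  | insert i J hi ih =>
    rw [Finset.sup_insert, Finset.inf_insert, Submodule.dualCoannihilator_sup_eq, ih,
      Subspace.dualAnnihilator_dualCoannihilator_eq]

/-- hyperplanes in general position -/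
theorem exists_forms {n : ℕ} (X : Fin n → Submodule K V)
    (h : ∀ J : Finset (Fin n), finrank K (J.inf X : Submodule K V) + J.card ≤ finrank K V) :
    ∃ f : Fin n → Dual K V, (∀ i, ∀ x ∈ X i, f i x = 0) ∧ LinearIndependent K f := by
  obtain ⟨f, hf, hli⟩ := rado _ (fun i => (X i).dualAnnihilator) rfl (by
    intro J
    have h1 := Subspace.finrank_add_finrank_dualCoannihilator_eq
      (J.sup fun i => (X i).dualAnnihilator)
    rw [coann_sup] at h1
    have h2 := h J
    omega)
  exact ⟨f, fun i x hx => (Submodule.mem_dualAnnihilator _).1 (hf i) x hx, hli⟩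

theorem isQTransversal_of_forms {n : ℕ} {X : Fin n → Submodule K V} {f : Fin n → Dual K V}
    (hf : ∀ i, ∀ x ∈ X i, f i x = 0) {T : Submodule K V} (hT : finrank K T = n)
    (hT0 : ∀ x ∈ T, (∀ i, f i x = 0) → x = 0) : IsQTransversal X T := by
  refine ⟨hT, fun b => ?_⟩
  let A : Matrix (Fin n) (Fin n) K := Matrix.of fun i j => f i (b j)
  have hdet : A.det ≠ 0 := by
    intro h0
    obtain ⟨c, hc0, hc⟩ := Matrix.exists_mulVec_eq_zero_iff.2 h0
    apply hc0
    have h1 : (∑ j, c j • b j : T) = 0 := by
      apply Subtype.ext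
      apply hT0 _ (Submodule.coe_mem _)
      intro i
      have h2 := congrFun hc i
      simp only [Matrix.mulVec, dotProduct, A, Matrix.of_apply, Pi.zero_apply] at h2
      rw [← h2]
      push_cast
      rw [map_sum]
      refine Finset.sum_congr rfl fun j _ => ?_
      rw [map_smul, smul_eq_mul, mul_comm]
    have h3 := b.linearIndependent
    rw [Fintype.linearIndependent_iff] at h3
    funext j
    exact h3 c h1 j
  rw [Matrix.det_apply] at hdet
  obtain ⟨π, -, hπ⟩ := Finset.exists_ne_zero_of_sum_ne_zero hdet
  have hprod : ∏ i, A (π i) i ≠ 0 := fun h => hπ (by rw [h, smul_zero])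
  refine ⟨π.symm, fun i hi => ?_⟩
  have h4 := Finset.prod_ne_zero_iff.1 hprod (π.symm i) (Finset.mem_univ _)
  rw [Equiv.apply_symm_apply] at h4
  exact h4 (hf i _ hi)

/-- A `q`-transversal meets the intersections in small subspaces. -/
theorem finrank_inf_le {n : ℕ} {X : Fin n → Submodule K V} {T : Submodule K V}
    (hT : IsQTransversal X T) (J : Finset (Fin n)) :
    finrank K (T ⊓ J.inf X : Submodule K V) + J.card ≤ n := by
  obtain ⟨hTn, hT⟩ := hT
  let P : Submodule K T := (J.inf X).comap T.subtype
  obtain ⟨Q, hQ⟩ := Submodule.exists_isCompl P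
  have hPfr : finrank K P = finrank K (T ⊓ J.inf X : Submodule K V) := by
    have h1 : (P.map T.subtype) = T ⊓ J.inf X := by
      rw [Submodule.map_comap_subtype]
    rw [← h1]
    exact (LinearEquiv.finrank_eq
      (Submodule.equivMapOfInjective T.subtype T.injective_subtype P))
  have hsum : finrank K P + finrank K Q = n := by
    rw [← hTn]
    exact Submodule.finrank_add_eq_of_isCompl hQ
  let b' : Basis (Fin (finrank K P) ⊕ Fin (finrank K Q)) K T :=
    ((finBasis K P).prod (finBasis K Q)).map (Submodule.prodEquivOfIsCompl P Q hQ)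
  let φ : Fin (finrank K P) ⊕ Fin (finrank K Q) ≃ Fin n := finSumFinEquiv.trans (finCongr hsum)
  obtain ⟨σ, hσ⟩ := hT (b'.reindex φ)
  have hinl : ∀ k, ((b' (Sum.inl k) : T) : V) ∈ J.inf X := by
    intro k
    have h2 : b' (Sum.inl k) = (finBasis K P k : T) := by
      simp [b']
    rw [h2]
    exact (finBasis K P k).2
  have hinr : ∀ i ∈ J, ∃ k, φ.symm (σ i) = Sum.inr k := by
    intro i hi
    rcases h3 : φ.symm (σ i) with k | k
    · exfalso
      apply hσ i
      rw [Basis.reindex_apply, h3]
      exact (Finset.inf_le (f := X) hi) (hinl k)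
    · exact ⟨k, rfl⟩
  have hcard : J.card ≤ finrank K Q := by
    have h4 : J.card ≤ ((Finset.univ : Finset (Fin (finrank K Q))).map
        ⟨(Sum.inr : _ → Fin (finrank K P) ⊕ Fin (finrank K Q)), Sum.inr_injective⟩).card := by
      apply Finset.card_le_card_of_injOn (fun i => φ.symm (σ i))
      · intro i hi
        obtain ⟨k, hk⟩ := hinr i hi
        simp [hk]
      · intro i _ j _ hij
        exact σ.injective (φ.symm.injective hij)
    simpa using h4
  omega

end Transversal

/-- **Q1 (the `q`-analogue of Rado's theorem).**  Let `M` be a `q`-matroid on a finite-dimensional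
vector space `V` (over any field `K`, in particular over `𝔽_q`) and `X 0, ..., X (n-1)` subspaces
of `V`.  There is an `M`-independent `q`-transversal of `X` if and only if
`n̄(⋂_{j ∈ J} X j) + |J| ≤ n̄(V)` for all `J`. -/
theorem result {K V : Type*} [Field K] [AddCommGroup V] [Module K V] [FiniteDimensional K V]
    (M : QMatroid K V) {n : ℕ} (X : Fin n → Submodule K V) :
    (∃ T : Submodule K V, M.Indep T ∧ IsQTransversal X T) ↔
      ∀ J : Finset (Fin n), M.barNullity (J.inf X) + J.card ≤ M.barNullity ⊤ := by
  constructor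
  · rintro ⟨T, hT, hTX⟩ J
    obtain ⟨B, hB, hTB⟩ := M.exists_basis hT
    have h1 := finrank_inf_le hTX J
    have h2 := M.barNullity_le (X := J.inf X) hB
    have h3 := Submodule.finrank_sup_add_finrank_inf_eq (B ⊓ J.inf X) T
    have h4 : (B ⊓ J.inf X) ⊓ T = T ⊓ J.inf X := by
      rw [inf_right_comm, inf_eq_right.2 hTB]
    have h5 : finrank K ((B ⊓ J.inf X) ⊔ T : Submodule K V) ≤ finrank K B :=
      Submodule.finrank_mono (sup_le inf_le_left hTB)
    rw [h4, hTX.1] at h3
    rw [M.finrank_basis hB] at h5
    rw [M.barNullity_top]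
    omega
  · intro h
    have hr := h Finset.univ
    rw [M.barNullity_top, Finset.card_univ, Fintype.card_fin] at hr
    have hrV : M.r ⊤ ≤ finrank K V := by
      have := M.le_dim ⊤
      rwa [finrank_top] at this
    obtain ⟨f, hf, hli⟩ := exists_forms X (fun J => by
      have h1 := h J
      rw [M.barNullity_top] at h1
      have h2 := M.barNullity_lower (J.inf X)
      omega)
    -- the common kernel
    let W : Submodule K V := (Submodule.span K (Set.range f)).dualCoannihilator
    have hWmem : ∀ x, x ∈ W ↔ ∀ i, f i x = 0 := by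
      intro x
      rw [Submodule.mem_dualCoannihilator]
      constructor
      · intro h1 i
        exact h1 _ (Submodule.subset_span ⟨i, rfl⟩)
      · intro h1 φ hφ
        induction hφ using Submodule.span_induction with
        | mem φ hφ => obtain ⟨i, rfl⟩ := hφ; exact h1 i
        | zero => rfl
        | add φ ψ _ _ h2 h3 => rw [LinearMap.add_apply, h2, h3, add_zero]
        | smul c φ _ h2 => rw [LinearMap.smul_apply, h2, smul_zero]
    have hWfr : n + finrank K W = finrank K V := by
      have h1 := Subspace.finrank_add_finrank_dualCoannihilator_eq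
        (Submodule.span K (Set.range f))
      rw [finrank_span_eq_card hli, Fintype.card_fin] at h1
      exact h1
    obtain ⟨B, hB, hcase⟩ := M.exists_general W
    have hBr := M.finrank_basis hB
    have hsi := Submodule.finrank_sup_add_finrank_inf_eq B W
    have hBW : finrank K (B ⊓ W : Submodule K V) + n = M.r ⊤ := by
      rcases hcase with h1 | h1
      · have h2 := Submodule.finrank_le (B ⊔ W)
        rw [h1, finrank_bot] at hsi ⊢
        omega
      · rw [h1, finrank_top] at hsi
        omega
    obtain ⟨T, hTB, -, hinf, hfr⟩ := exists_compl_in (inf_le_left : B ⊓ W ≤ B)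
    refine ⟨T, hB.1.le hTB, isQTransversal_of_forms hf (by omega) ?_⟩
    intro x hx hx0
    have h1 : x ∈ (B ⊓ W) ⊓ T := ⟨⟨hTB hx, (hWmem x).2 hx0⟩, hx⟩
    rw [hinf] at h1
    exact (Submodule.mem_bot K).1 h1

end Pool.Agent.Results.MP_ca0b96_co.QRado
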